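import Pool.Agent.W626.FR.Stms

/-!
# The Laplace transform of the pressure (`FrogRec.TaskGrow2`)
-/

namespace Pool.Agent.W103.FR.Grow2

open MeasureTheory ProbabilityTheory Filter FrogGW FrogRec
open scoped ENNReal NNReal Classical Topology

/-- Inequality of the arithmetic and geometric means. -/
lemma amgm (G : Finset ℕ) (hG : G.card ≠ 0) (v : ℕ → ℝ≥0∞) (hv : ∀ k ∈ G, v k ≠ ∞) :
    ∏ k ∈ G, v k ≤ (G.card : ℝ≥0∞)⁻¹ * ∑ k ∈ G, v k ^ G.card := by
  have h1 : ∀ k ∈ G, v k = ((v k).toNNReal : ℝ≥0∞) := fun k hk => (ENNReal.coe_toNNReal (hv k hk)).symm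
  have hGne : (G.card : ℝ≥0) ≠ 0 := by exact_mod_cast hG
  have h3 := NNReal.geom_mean_le_arith_mean_weighted G (fun _ => (G.card : ℝ≥0)⁻¹)
    (fun k => (v k).toNNReal ^ G.card) (by
      rw [Finset.sum_const, nsmul_eq_mul, mul_inv_cancel₀ hGne])
  have h4 : ∏ k ∈ G, ((v k).toNNReal ^ G.card) ^ (((G.card : ℝ≥0)⁻¹ : ℝ≥0) : ℝ) =
      ∏ k ∈ G, (v k).toNNReal := by
    refine Finset.prod_congr rfl fun k _ => ?_
    rw [NNReal.coe_inv, NNReal.coe_natCast]
    exact NNReal.pow_rpow_inv_natCast _ hG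
  rw [h4, ← Finset.mul_sum] at h3
  calc ∏ k ∈ G, v k = ((∏ k ∈ G, (v k).toNNReal : ℝ≥0) : ℝ≥0∞) := by
        rw [ENNReal.ofNNReal_finsetProd]; exact Finset.prod_congr rfl h1
    _ ≤ (((G.card : ℝ≥0)⁻¹ * ∑ k ∈ G, (v k).toNNReal ^ G.card : ℝ≥0) : ℝ≥0∞) := by
        exact_mod_cast h3
    _ = (G.card : ℝ≥0∞)⁻¹ * ∑ k ∈ G, v k ^ G.card := by
        rw [ENNReal.coe_mul, ENNReal.coe_inv hGne, ENNReal.coe_natCast, ENNReal.ofNNReal_finsetSum]
        congr 1
        refine Finset.sum_congr rfl fun k hk => ?_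
        rw [ENNReal.coe_pow, ← h1 k hk]

/-- Jensen's inequality for a power. -/
lemma jensen {X : Type} [MeasurableSpace X] (ν : Measure X) [IsProbabilityMeasure ν]
    (f : X → ℝ≥0∞) (hf : Measurable f) (g : ℕ) (hg : 1 ≤ g) :
    (∫⁻ x, f x ∂ν) ^ g ≤ ∫⁻ x, f x ^ g ∂ν := by
  have h := eLpNorm'_le_eLpNorm'_of_exponent_le (p := 1) (q := (g : ℝ)) one_pos
    (by exact_mod_cast hg) ν (f := f) hf.aestronglyMeasurable
  simp only [eLpNorm', enorm_eq_self, ENNReal.rpow_one, one_div, inv_one,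
    ENNReal.rpow_natCast] at h
  have hg0 : (g : ℝ) ≠ 0 := by positivity
  calc (∫⁻ x, f x ∂ν) ^ g ≤ ((∫⁻ x, f x ^ g ∂ν) ^ ((g : ℝ)⁻¹)) ^ g := by gcongr
    _ = ∫⁻ x, f x ^ g ∂ν := by
        rw [← ENNReal.rpow_natCast, ← ENNReal.rpow_mul, inv_mul_cancel₀ hg0, ENNReal.rpow_one]

/-- Elementary inequality. -/
lemma elem (g : ℕ) (y : ℝ) (hy : 0 ≤ y) :
    ((1 + Real.exp (-y)) / 2) ^ g ≤ Real.exp (-(g * y / 4)) + (7 / 10 : ℝ) ^ g := by
  rcases le_total y 1 with h | h
  · have h1 : (1 + Real.exp (-y)) / 2 ≤ Real.exp (-(y / 4)) := by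
      have h2 : Real.exp (-y) = Real.exp (-(y / 4)) ^ 4 := by
        rw [← Real.exp_nat_mul]; congr 1; push_cast; ring
      have h3 : 3 / 4 ≤ Real.exp (-(y / 4)) := by
        have := Real.add_one_le_exp (-(y / 4)); linarith
      have h4 : Real.exp (-(y / 4)) ≤ 1 := Real.exp_le_one_iff.mpr (by linarith)
      rw [h2]
      set u := Real.exp (-(y / 4)) with hu
      have h5 : 0 ≤ (1 - u) * (u ^ 3 + u ^ 2 + u - 1) := by
        apply mul_nonneg (by linarith)
        nlinarith [sq_nonneg u, pow_pos (by linarith : (0:ℝ) < u) 3]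
      nlinarith
    calc ((1 + Real.exp (-y)) / 2) ^ g ≤ Real.exp (-(y / 4)) ^ g := by
          apply pow_le_pow_left₀ _ h1
          positivity
      _ = Real.exp (-(g * y / 4)) := by rw [← Real.exp_nat_mul]; congr 1; ring
      _ ≤ _ := by linarith [pow_pos (by norm_num : (0:ℝ) < 7 / 10) g]
  · have h1 : (1 + Real.exp (-y)) / 2 ≤ 7 / 10 := by
      have h2 : Real.exp (-y) ≤ Real.exp (-1) := Real.exp_le_exp.mpr (by linarith)
      have h3 : Real.exp (-1) ≤ 2 / 5 := by
        rw [Real.exp_neg]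
        rw [inv_le_comm₀ (Real.exp_pos _) (by norm_num)]
        have := Real.exp_one_gt_d9
        norm_num at this ⊢
        linarith
      linarith
    calc ((1 + Real.exp (-y)) / 2) ^ g ≤ (7 / 10) ^ g := by
          apply pow_le_pow_left₀ _ h1
          positivity
      _ ≤ _ := by linarith [Real.exp_pos (-(g * y / 4))]

/-- The factor of one child. -/
noncomputable def F (b : ℝ) (p : ℝ × ℝ≥0) : ℝ≥0∞ :=
  if p.1 ≤ 1 / 2 then ENNReal.ofReal (Real.exp (-(b * p.2))) else 1

lemma F_meas (b : ℝ) : Measurable (F b) := by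
  unfold F
  refine Measurable.ite ?_ ?_ measurable_const
  · exact measurableSet_le measurable_fst measurable_const
  · fun_prop

lemma unif_half : unif (Set.Iic (1 / 2 : ℝ)) = 2⁻¹ := by
  unfold unif
  rw [Measure.restrict_apply measurableSet_Iic]
  have : Set.Iic (1 / 2 : ℝ) ∩ Set.Ico 0 1 = Set.Icc 0 (1 / 2) := by
    ext x; simp only [Set.mem_inter_iff, Set.mem_Iic, Set.mem_Ico, Set.mem_Icc]
    constructor
    · rintro ⟨h1, h2, h3⟩; exact ⟨h2, h1⟩
    · rintro ⟨h1, h2⟩; exact ⟨h2, h1, by linarith⟩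
  rw [this, Real.volume_Icc, sub_zero, ENNReal.ofReal_div_of_pos (by norm_num)]
  simp

lemma unif_half_compl : unif (Set.Iic (1 / 2 : ℝ))ᶜ = 2⁻¹ := by
  rw [prob_compl_eq_one_sub measurableSet_Iic, unif_half, ENNReal.one_sub_inv_two]

lemma F_int (b : ℝ) (ν : Measure ℝ≥0) [IsProbabilityMeasure ν] :
    ∫⁻ p, F b p ∂(unif.prod ν) =
      ∫⁻ lam, ENNReal.ofReal ((1 + Real.exp (-(b * lam))) / 2) ∂ν := by
  rw [lintegral_prod _ (F_meas b).aemeasurable]
  have h1 : ∀ x : ℝ, ∫⁻ y, F b (x, y) ∂ν =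
      if x ∈ Set.Iic (1 / 2 : ℝ) then ∫⁻ lam, ENNReal.ofReal (Real.exp (-(b * lam))) ∂ν else 1 := by
    intro x
    by_cases hx : x ≤ 1 / 2
    · simp only [F, hx, if_true, Set.mem_Iic]
    · simp only [F, hx, if_false, Set.mem_Iic, lintegral_const, measure_univ, one_mul]
  simp_rw [h1]
  rw [← lintegral_add_compl _ (measurableSet_Iic (a := (1 / 2 : ℝ)))]
  have h2 : ∫⁻ x in Set.Iic (1 / 2 : ℝ), (if x ∈ Set.Iic (1 / 2 : ℝ) then
      ∫⁻ lam, ENNReal.ofReal (Real.exp (-(b * lam))) ∂ν else 1) ∂unif =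
      (∫⁻ lam, ENNReal.ofReal (Real.exp (-(b * lam))) ∂ν) * 2⁻¹ := by
    rw [setLIntegral_congr_fun measurableSet_Iic (g := fun _ =>
      ∫⁻ lam, ENNReal.ofReal (Real.exp (-(b * lam))) ∂ν) (fun x hx => by simp only [hx, if_true])]
    rw [lintegral_const, Measure.restrict_apply_univ, unif_half]
  have h3 : ∫⁻ x in (Set.Iic (1 / 2 : ℝ))ᶜ, (if x ∈ Set.Iic (1 / 2 : ℝ) then
      ∫⁻ lam, ENNReal.ofReal (Real.exp (-(b * lam))) ∂ν else 1) ∂unif = 2⁻¹ := by
    rw [setLIntegral_congr_fun measurableSet_Iic.compl (g := fun _ => 1) (fun x hx => by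
      rw [if_neg hx])]
    rw [lintegral_const, Measure.restrict_apply_univ, unif_half_compl, one_mul]
  rw [h2, h3]
  have h4 : ∀ lam : ℝ≥0, ENNReal.ofReal ((1 + Real.exp (-(b * lam))) / 2) =
      ENNReal.ofReal (Real.exp (-(b * lam))) * 2⁻¹ + 2⁻¹ := by
    intro lam
    rw [add_div, ENNReal.ofReal_add (by norm_num) (by positivity), add_comm,
      ENNReal.ofReal_div_of_pos (by norm_num), ENNReal.ofReal_div_of_pos (by norm_num)]
    simp [ENNReal.div_eq_inv_mul, mul_comm]
  simp_rw [h4]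
  rw [lintegral_add_right _ measurable_const, lintegral_mul_const _ (by fun_prop)]
  simp

/-- Product of functions of the coordinates. -/
lemma prod_int (ν : ℕ → Measure ℝ≥0) (hν : ∀ k, IsProbabilityMeasure (ν k)) (G : Finset ℕ)
    (f : ℝ × ℝ≥0 → ℝ≥0∞) (hf : Measurable f) :
    ∫⁻ w, ∏ k ∈ G, f (w k) ∂(WW ν) = ∏ k ∈ G, ∫⁻ p, f p ∂(unif.prod (ν k)) := by
  have hpr : ∀ k, pr (ν k) = ν k := fun k => by unfold pr; rw [if_pos (hν k)]
  unfold WW
  have h1 := lintegral_prod_eq_prod_lintegral_of_indepFun G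
    (fun (k : ℕ) (w : ℕ → ℝ × ℝ≥0) => f (w k))
    (iIndepFun_infinitePi (P := fun k => unif.prod (pr (ν k))) (X := fun _ => f) (fun _ => hf))
    (fun k => hf.comp (measurable_pi_apply k))
  rw [h1]
  refine Finset.prod_congr rfl fun k _ => ?_
  have h2 := lintegral_map (μ := Measure.infinitePi fun k => unif.prod (pr (ν k))) hf
    (measurable_pi_apply k)
  rw [← h2]
  have h3 := Measure.infinitePi_map_eval (fun k => unif.prod (pr (ν k))) k
  have h4 : (Measure.infinitePi fun k => unif.prod (pr (ν k))).map (fun w => w k) =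
    unif.prod (pr (ν k)) := h3
  rw [h4, hpr]

theorem result : TaskSelB → TaskSelMeas → TaskGrow1 → TaskGrow2 := by
  intro hB hM hG1 α B m a c θ κ ν s G hα hα1 hB1 hm hc hGs hν hG hcard
  have hc0 : 0 < c := lt_of_lt_of_le one_pos hc
  have hcR : (1 : ℝ) ≤ c := by exact_mod_cast hc
  have hcard0 : G.card ≠ 0 := by
    intro h
    rw [h, Nat.cast_zero, mul_zero] at hcard
    linarith
  have hcardR : (0 : ℝ) < G.card := by positivity
  have hB0 : 0 < B := by linarith
  have h0 := hG1 α B m a c κ ν s G hα hα1 hB1 hm hc hGs hν hG hcard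
  set b : ℝ := θ / (2 * c) with hb
  have hb0 : 0 ≤ b := by positivity
  -- pointwise bound
  have hpt : ∀ w : ℕ → ℝ × ℝ≥0,
      ENNReal.ofReal (Real.exp (-((θ : ℝ) * (Sel a c κ s w : ℝ)))) ≤
      Set.indicator {w | (Sel a c κ s w : ℝ) < 1 / α} (fun _ => (1 : ℝ≥0∞)) w +
        ENNReal.ofReal (Real.exp (-((θ : ℝ) * a / (2 * c)))) * ∏ k ∈ G, F b (w k) := by
    intro w
    by_cases hw : (Sel a c κ s w : ℝ) < 1 / α
    · rw [Set.indicator_of_mem (by exact hw)]
      refine le_trans ?_ le_self_add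
      rw [ENNReal.ofReal_le_one]
      apply Real.exp_le_one_iff.mpr
      have : 0 ≤ (θ : ℝ) * (Sel a c κ s w : ℝ) := by positivity
      linarith
    · refine le_trans ?_ le_add_self
      push Not at hw
      obtain ⟨hB_1, hB_2, hB_3⟩ := hB a c κ s w hc0
      set S := Sel a c κ s w with hS
      -- lower bound of `c S`
      have h1 : (a : ℝ) + ∑ k ∈ G, (if (w k).1 ≤ 1 / 2 then ((w k).2 : ℝ) else 0) ≤ c * S := by
        have h2 : ((a + ∑ k ∈ s, (if (w k).1 ≤ 1 - Real.exp (-((κ k : ℝ) * (S : ℝ)))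
            then (w k).2 else 0) : ℝ≥0) : ℝ) = c * S := by
          rw [hB_1]; push_cast; ring
        rw [← h2]
        push_cast
        gcongr
        calc ∑ k ∈ G, (if (w k).1 ≤ 1 / 2 then ((w k).2 : ℝ) else 0)
            ≤ ∑ k ∈ G, (if (w k).1 ≤ 1 - Real.exp (-((κ k : ℝ) * (S : ℝ)))
              then ((w k).2 : ℝ) else 0) := by
              refine Finset.sum_le_sum fun k hk => ?_
              by_cases hk2 : (w k).1 ≤ 1 / 2
              · have h3 : (w k).1 ≤ 1 - Real.exp (-((κ k : ℝ) * (S : ℝ))) := by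
                  have h4 : 1 ≤ (κ k : ℝ) * S := by
                    have h5 := (hG k hk).1
                    calc (1 : ℝ) = α * (1 / α) := by field_simp
                      _ ≤ κ k * S := by gcongr
                  have h6 : Real.exp (-((κ k : ℝ) * (S : ℝ))) ≤ Real.exp (-1) :=
                    Real.exp_le_exp.mpr (by linarith)
                  have h7 : Real.exp (-1) ≤ 1 / 2 := by
                    rw [Real.exp_neg]
                    rw [inv_le_comm₀ (Real.exp_pos _) (by norm_num)]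
                    have := Real.exp_one_gt_d9
                    norm_num at this ⊢
                    linarith
                  linarith
                rw [if_pos hk2, if_pos h3]
              · rw [if_neg hk2]
                split_ifs
                · positivity
                · exact le_rfl
          _ ≤ ∑ k ∈ s, (if (w k).1 ≤ 1 - Real.exp (-((κ k : ℝ) * (S : ℝ)))
              then ((w k).2 : ℝ) else 0) := by
              refine Finset.sum_le_sum_of_subset_of_nonneg hGs fun k _ _ => ?_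
              split_ifs
              · positivity
              · exact le_rfl
          _ = _ := by
              refine Finset.sum_congr rfl fun k _ => ?_
              split_ifs <;> simp
      have h2 : ∏ k ∈ G, F b (w k) = ENNReal.ofReal (Real.exp (-(b *
          ∑ k ∈ G, (if (w k).1 ≤ 1 / 2 then ((w k).2 : ℝ) else 0)))) := by
        rw [Finset.mul_sum, ← Finset.sum_neg_distrib, Real.exp_sum,
          ENNReal.ofReal_prod_of_nonneg (fun _ _ => (Real.exp_pos _).le)]
        refine Finset.prod_congr rfl fun k _ => ?_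
        unfold F
        split_ifs <;> simp
      rw [h2, ← ENNReal.ofReal_mul (Real.exp_pos _).le, ← Real.exp_add]
      apply ENNReal.ofReal_le_ofReal
      apply Real.exp_le_exp.mpr
      set sig := ∑ k ∈ G, (if (w k).1 ≤ 1 / 2 then ((w k).2 : ℝ) else 0) with hsig
      have h3 : (θ : ℝ) * a / (2 * c) + b * sig = (θ : ℝ) / (2 * c) * (a + sig) := by
        rw [hb]; ring
      have h4 : (θ : ℝ) / (2 * c) * (a + sig) ≤ θ / (2 * c) * (c * S) := by gcongr
      have h5 : (θ : ℝ) / (2 * c) * (c * S) = θ * S / 2 := by field_simp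
      have h6 : 0 ≤ (θ : ℝ) * S := by positivity
      linarith
  have hmeas : Measurable fun w : ℕ → ℝ × ℝ≥0 => ENNReal.ofReal
      (Real.exp (-((θ : ℝ) * a / (2 * c)))) * ∏ k ∈ G, F b (w k) := by
    apply Measurable.const_mul
    exact Finset.measurable_prod _ fun k _ => (F_meas b).comp (measurable_pi_apply k)
  have hset : MeasurableSet {w : ℕ → ℝ × ℝ≥0 | (Sel a c κ s w : ℝ) < 1 / α} := by
    have h1 : Measurable fun w : ℕ → ℝ × ℝ≥0 => Sel a c κ s w :=
      (hM c κ s hc0).comp (measurable_const.prodMk measurable_id)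
    exact measurableSet_lt (measurable_coe_nnreal_real.comp h1) measurable_const
  refine (lintegral_mono hpt).trans ?_
  rw [lintegral_add_right _ hmeas, lintegral_indicator hset, lintegral_one,
    Measure.restrict_apply_univ, lintegral_const_mul' _ _ ENNReal.ofReal_ne_top,
    prod_int ν hν G (F b) (F_meas b), add_assoc]
  refine add_le_add h0 ?_
  -- the product
  have hv : ∀ k, ∫⁻ p, F b p ∂(unif.prod (ν k)) ≠ ∞ := by
    intro k
    have := hν k
    have h1 : ∫⁻ p, F b p ∂(unif.prod (ν k)) ≤ ∫⁻ _p, 1 ∂(unif.prod (ν k)) := by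
      refine lintegral_mono fun p => ?_
      unfold F
      split_ifs
      · rw [ENNReal.ofReal_le_one]
        apply Real.exp_le_one_iff.mpr
        have : 0 ≤ b * p.2 := by positivity
        linarith
      · exact le_rfl
    refine ne_top_of_le_ne_top ?_ h1
    simp
  have h1 := amgm G hcard0 (fun k => ∫⁻ p, F b p ∂(unif.prod (ν k))) (fun k _ => hv k)
  have h2 : ∀ k, (∫⁻ p, F b p ∂(unif.prod (ν k))) ^ G.card ≤
      ∫⁻ lam, ENNReal.ofReal (Real.exp (-((θ : ℝ) * lam / (8 * B)))) ∂(ν k) +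
        ENNReal.ofReal ((7 / 10) ^ G.card) := by
    intro k
    have := hν k
    rw [F_int b (ν k)]
    refine (jensen (ν k) _ (by fun_prop) G.card (Nat.one_le_iff_ne_zero.mpr hcard0)).trans ?_
    have h3 : ∫⁻ lam, (ENNReal.ofReal (Real.exp (-((θ : ℝ) * lam / (8 * B)))) +
        ENNReal.ofReal ((7 / 10) ^ G.card)) ∂(ν k) =
        ∫⁻ lam, ENNReal.ofReal (Real.exp (-((θ : ℝ) * lam / (8 * B)))) ∂(ν k) +
        ENNReal.ofReal ((7 / 10) ^ G.card) := by
      rw [lintegral_add_right _ measurable_const]; simp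
    rw [← h3]
    refine lintegral_mono fun lam => ?_
    dsimp only
    rw [← ENNReal.ofReal_pow (by positivity), ← ENNReal.ofReal_add (by positivity) (by positivity)]
    apply ENNReal.ofReal_le_ofReal
    have hbl : 0 ≤ b * lam := by positivity
    refine (elem G.card (b * lam) hbl).trans ?_
    refine add_le_add (Real.exp_le_exp.mpr (neg_le_neg ?_)) le_rfl
    -- θ lam / (8 B) ≤ g * (b lam) / 4
    have h4 : (θ : ℝ) * lam / (8 * B) ≤ θ * lam / (8 * (c / G.card)) := by
      gcongr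
      rw [div_le_iff₀ hcardR]; exact hcard
    refine h4.trans (le_of_eq ?_)
    rw [hb]; field_simp; ring
  calc ENNReal.ofReal (Real.exp (-((θ : ℝ) * a / (2 * c)))) *
        ∏ k ∈ G, ∫⁻ p, F b p ∂(unif.prod (ν k))
      ≤ ENNReal.ofReal (Real.exp (-((θ : ℝ) * a / (2 * c)))) *
        ((G.card : ℝ≥0∞)⁻¹ * ∑ k ∈ G,
          (∫⁻ lam, ENNReal.ofReal (Real.exp (-((θ : ℝ) * lam / (8 * B)))) ∂(ν k) +
            ENNReal.ofReal ((7 / 10) ^ G.card))) := by
        gcongr
        refine h1.trans ?_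
        gcongr with k _
        exact h2 k
    _ = ENNReal.ofReal (Real.exp (-((θ : ℝ) * a / (2 * c)))) *
        ((G.card : ℝ≥0∞)⁻¹ * ∑ k ∈ G,
          ∫⁻ lam, ENNReal.ofReal (Real.exp (-((θ : ℝ) * lam / (8 * B)))) ∂(ν k)) +
        ENNReal.ofReal ((7 / 10) ^ G.card * Real.exp (-((θ : ℝ) * a / (2 * c)))) := by
        rw [Finset.sum_add_distrib, mul_add, mul_add]
        congr 1
        rw [Finset.sum_const, nsmul_eq_mul, ← mul_assoc (G.card : ℝ≥0∞)⁻¹,
          ENNReal.inv_mul_cancel (by exact_mod_cast hcard0) (ENNReal.natCast_ne_top _), one_mul,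
          ← ENNReal.ofReal_mul (Real.exp_pos _).le, mul_comm]
    _ ≤ _ := by
        refine add_le_add ?_ le_rfl
        refine mul_le_of_le_one_left' ?_
        rw [ENNReal.ofReal_le_one]
        apply Real.exp_le_one_iff.mpr
        have : 0 ≤ (θ : ℝ) * a / (2 * c) := by positivity
        linarith

end Pool.Agent.W103.FR.Grow2
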